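import Pool.Agent.H39.GEN.LabN
import Pool.Agent.H31.W1.H80.GEN.Chn
import Pool.Agent.H3.W.Nlp

/-!
# The system of the chains of two-sided labels

Row 351. `Tch l k K a w P`: a chain of two-sided labels (`Pool.GEN.ChN`) of the coordinates `l` and
of the target `k`, on a radius and a window which may be larger than `2 ^ (-a)` and `2 ^ (-w)`, with
the precision `2 ^ (-P)` of the target, where one digit of the radius counts for one digit of the
precision. Nothing is assumed about the precisions of the labels of the coordinates `l`, which are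
the sides of the natural boxes, and about the gradients.

This is a system of labels (`lsys`) which has the slope law and the trivial labels in every class;
so every class has a subclass in which the thresholds of all the chains are numbers (`thr_lsys`).
-/

set_option autoImplicit false

namespace Pool.W.LBN

open Pool.LBN

open Finset Real MvPolynomial
open Pool.Agent.H49.Ent Pool.Agent.H32.Dense Pool.STK Pool.KA Pool.KSAT Pool.K2S Pool.PB Pool.S6C
open Pool.GEN (bt bd PtT LnT DepC NBx ChOK ChN Chn)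
open Pool.LBT (LSys Slo Tri ThrOf)
open Pool.LEV (Law)

variable {n J : ℕ}


/-- **Labels of the target `k`** over the coordinates `l`. -/
def Tch (l : List (Fin n)) (k : Fin n) (K a w P : ℕ) : Pool.K2S.Stat n := fun J F A =>
  ∃ (a₀ w₀ e : ℕ) (g : ℕ → ℕ), w₀ ≤ a₀ ∧ a₀ ≤ a ∧ w₀ ≤ w ∧ P + a₀ ≤ g l.length + a ∧
    (∀ i ≤ l.length, g i ≤ J) ∧ Pool.W.GEN.ChN F (Pool.LBN.cof l k) (l.length + 1) (fun _ => K) a₀ w₀ e g A

/-! ### Elementary facts -/


theorem Tch.her (l : List (Fin n)) (k : Fin n) (K a w P J : ℕ) (F : Pool.KA.Fam n J) :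
    Pool.K2S.Hered (Pool.W.LBN.Tch l k K a w P J F) := by
  rintro A B hB ⟨a₀, w₀, e, g, h1, h2, h3, h4, h5, h⟩
  exact ⟨a₀, w₀, e, g, h1, h2, h3, h4, h5, Pool.W.GEN.ChN.hered F _ _ _ _ _ _ _ A B hB h⟩

theorem Tch.anti {l : List (Fin n)} {k : Fin n} {K a w P P' J : ℕ} {F : Pool.KA.Fam n J}
    {A : F.Ω → Prop} (hP : P' ≤ P) (h : Pool.W.LBN.Tch l k K a w P J F A) : Pool.W.LBN.Tch l k K a w P' J F A := by
  obtain ⟨a₀, w₀, e, g, h1, h2, h3, h4, h5, h⟩ := h
  exact ⟨a₀, w₀, e, g, h1, h2, h3, by omega, h5, h⟩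

theorem Tch.mono {l : List (Fin n)} {k : Fin n} {K K' a a' w w' P J : ℕ} {F : Pool.KA.Fam n J}
    {A : F.Ω → Prop} (hK : K ≤ K') (ha : a ≤ a') (hw : w ≤ w') (h : Pool.W.LBN.Tch l k K a w P J F A) :
    Pool.W.LBN.Tch l k K' a' w' P J F A := by
  obtain ⟨a₀, w₀, e, g, h1, h2, h3, h4, h5, h⟩ := h
  exact ⟨a₀, w₀, e, g, h1, h2.trans ha, h3.trans hw, by omega, h5, h.cls fun _ _ => hK⟩


/-! ### Trivial labels -/


/-! ### Closed labels -/


/-! ### The system of labels -/


/-! ### Absence and the two kinds of thresholds -/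


end Pool.W.LBN
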